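import Mathlib
import Pool.Agent.H890.Tf5

/-!
MP_c3f9e6_ag, Q1: the boundary can be removed. The conjecture of Prokhorov and Shokurov on the
`b`-semiampleness of the moduli part, for fibrations `f : (X, B) → Z` with an effective divisor `B`,
is equivalent to the one for fibrations of varieties without boundary, `K_X ∼_ℚ f^* L`.
-/

set_option autoImplicit false

namespace Pool.Agent.Results.MP_c3f9e6_ag.BoundaryRemovalModuli

open FF Pool.Agent.W602.GT Pool.Agent.Y172 Pool.Agent.R887 Pool.Agent.H890

/-- (1) Let `f : X → Z` be a contraction of normal projective varieties over `ℂ` of dimensions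
`n ≥ 1` and `d`, with function fields `F ⊆ K` and generic points `w`, `y`, and let `B` be an effective
divisor on `X` such that `b B` is Cartier, `b ≥ 2`, and `K_X + B ∼_ℚ f^* L` for a `ℚ`-Cartier divisor
`L` on `Z` (`Λ` is the family of its multiplicities). Then there is a normal projective variety `V` of
dimension `n + 2 b - 2`, birational to `X × P ^ (2 b - 2)` (its function field `M` is the field of
rational functions in `2 b - 2` variables `t` over `K`) and a contraction `g : V → Z` such that
`K_V ∼_ℚ g^* L`; the variety `V` is klt over the generic point of `Z` if `(X, B)` is; and the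
fibrations `g : V → Z` and `f : (X, B) → Z` have the same moduli parts (the same discriminants on all
models of `Z`).

(2) The moduli part is `b`-semiample for all such fibrations with `B = 0` and `X` klt over the generic
point of `Z` if and only if it is `b`-semiample for all such fibrations with `(X, B)` klt over the
generic point of `Z`. -/
theorem result :
    (∀ (K F : Type) [Field K] [Algebra ℂ K] [Field F] [Algebra ℂ F] [Algebra F K]
      [IsScalarTower ℂ F K] (n d b N m : ℕ) (y : Fin (N + 1) → K) (B : Place ℂ K → ℚ)
      (w : Fin (m + 1) → F) (Λ : Place ℂ F → ℚ), 2 ≤ b → 1 ≤ n →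
      LogTrivialFibration y n B w d Λ → CartierMul y n b B →
      ∃ (M : Type) (_ : Field M) (_ : Algebra ℂ M) (_ : Algebra K M) (_ : Algebra F M)
        (_ : IsScalarTower ℂ K M) (_ : IsScalarTower F K M) (_ : IsScalarTower ℂ F M)
        (t : Fin (2 * b - 2) → M) (N' : ℕ) (v : Fin (N' + 1) → M), AlgebraicIndependent K t ∧
        IntermediateField.adjoin K (Set.range t) = ⊤ ∧
        LogTrivialFibration v (n + (2 * b - 2)) 0 w d Λ ∧
        (KltGeneric F y n B → KltGeneric F v (n + (2 * b - 2)) 0) ∧
        ∀ μ : Place ℂ F → ℚ,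
          ModuliPart v (n + (2 * b - 2)) 0 d Λ μ ↔ ModuliPart y n B d Λ μ) ∧
    (ModuliSemiampleKltVariety ↔ ModuliSemiampleKlt) := by
  refine ⟨fun K F _ _ _ _ _ _ n d b N m y B w Λ hb hn1 hf hcar => ?_, moduli_klt⟩
  obtain ⟨M, i1, i2, i3, i4, i5, i6, i7, t, N', v, h1, h2, h3, h4, -, h6⟩ :=
    fibration_removal K F hb hn1 hf hcar
  exact ⟨M, i1, i2, i3, i4, i5, i6, i7, t, N', v, h1, h2, h3, h4, h6⟩

end Pool.Agent.Results.MP_c3f9e6_ag.BoundaryRemovalModuli
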